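import Mathlib
import Pool.Agent.N70.EP.Stm
import Pool.Agent.TH377.IG.BertC

/-!
Project EP (helper70), statement ONE (by helper999): the pair `(K(t), L(t))` and the descent of
regular solutions from `K(t)` to `K`.
-/

set_option autoImplicit false
set_option linter.unusedSectionVars false

namespace Pool.Agent.N999.EP

open Polynomial

/-- homomorphisms from `K(X)` are determined by `K` and `X` -/
theorem hom_ext' {K U : Type} [Field K] [Field U] (f g : RatFunc K →+* U)
    (hC : ∀ k, f (algebraMap K (RatFunc K) k) = g (algebraMap K (RatFunc K) k))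
    (hX : f RatFunc.X = g RatFunc.X) : f = g := by
  apply IsLocalization.ringHom_ext (nonZeroDivisors K[X])
  apply Polynomial.ringHom_ext
  · intro k
    simp only [RingHom.comp_apply]
    exact hC k
  · simp only [RingHom.comp_apply, RatFunc.algebraMap_X]
    exact hX

theorem const_of_alg {L : Type} [Field L] (y : RatFunc L) (hy : IsAlgebraic L y) :
    y ∈ Set.range (algebraMap L (RatFunc L)) := by
  by_contra h
  refine RatFunc.transcendental_of_ne_C y ?_ hy
  rintro ⟨c, rfl⟩
  exact h ⟨c, rfl⟩

section alg

variable {K L : Type} [Field K] [CharZero K] [Field L] [Algebra K L] [FiniteDimensional K L]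
  [IsGalois K L] [Algebra (RatFunc K) (RatFunc L)]

theorem tower1 (hp : ∀ p : K[X], algebraMap (RatFunc K) (RatFunc L) (algebraMap K[X] (RatFunc K) p)
      = algebraMap L[X] (RatFunc L) (p.map (algebraMap K L))) :
    IsScalarTower K (RatFunc K) (RatFunc L) := by
  refine IsScalarTower.of_algebraMap_eq fun c => ?_
  have h1 : algebraMap K (RatFunc K) c = algebraMap K[X] (RatFunc K) (Polynomial.C c) := rfl
  rw [h1, hp, Polynomial.map_C]
  rfl

omit [CharZero K] [FiniteDimensional K L] [IsGalois K L] in
theorem tower2 : IsScalarTower K L (RatFunc L) := inferInstance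

theorem map_X (hp : ∀ p : K[X], algebraMap (RatFunc K) (RatFunc L) (algebraMap K[X] (RatFunc K) p)
      = algebraMap L[X] (RatFunc L) (p.map (algebraMap K L))) :
    algebraMap (RatFunc K) (RatFunc L) RatFunc.X = RatFunc.X := by
  have := hp Polynomial.X
  rwa [RatFunc.algebraMap_X, Polynomial.map_X, RatFunc.algebraMap_X] at this

theorem split (hp : ∀ p : K[X], algebraMap (RatFunc K) (RatFunc L) (algebraMap K[X] (RatFunc K) p)
      = algebraMap L[X] (RatFunc L) (p.map (algebraMap K L))) :
    ∃ p : (RatFunc K)[X], p.Separable ∧ p.IsSplittingField (RatFunc K) (RatFunc L) := by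
  have t1 := tower1 hp
  obtain ⟨θ, hθ⟩ := Field.exists_primitive_element K L
  have hsep : (minpoly K θ).Separable := Algebra.IsSeparable.isSeparable K θ
  have hspl : ((minpoly K θ).map (algebraMap K L)).Splits := Normal.splits inferInstance θ
  have hmap : ((minpoly K θ).map (algebraMap K (RatFunc K))).map
      (algebraMap (RatFunc K) (RatFunc L)) =
      ((minpoly K θ).map (algebraMap K L)).map (algebraMap L (RatFunc L)) := by
    rw [Polynomial.map_map, Polynomial.map_map, ← IsScalarTower.algebraMap_eq,
      ← IsScalarTower.algebraMap_eq]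
  have hint : ∀ x ∈ ((minpoly K θ).map (algebraMap K (RatFunc K))).rootSet (RatFunc L),
      IsAlgebraic (RatFunc K) x := by
    intro x hx
    rw [Polynomial.mem_rootSet] at hx
    exact ⟨_, hx⟩
  refine ⟨(minpoly K θ).map (algebraMap K (RatFunc K)), hsep.map, ⟨?_, ?_⟩⟩
  · rw [hmap]
    exact hspl.map _
  · rw [← IntermediateField.adjoin_toSubalgebra_of_isAlgebraic (fun x hx => hint x hx)]
    obtain ⟨T, hT⟩ : ∃ T, T = IntermediateField.adjoin (RatFunc K)
      (((minpoly K θ).map (algebraMap K (RatFunc K))).rootSet (RatFunc L)) := ⟨_, rfl⟩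
    rw [← hT]
    have hθT : algebraMap L (RatFunc L) θ ∈ T := by
      rw [hT]
      apply IntermediateField.subset_adjoin
      rw [Polynomial.mem_rootSet]
      refine ⟨Polynomial.map_monic_ne_zero (minpoly.monic (IsIntegral.of_finite K θ)), ?_⟩
      rw [Polynomial.aeval_map_algebraMap, Polynomial.aeval_algebraMap_apply, minpoly.aeval,
        map_zero]
    have hLT : ∀ l : L, algebraMap L (RatFunc L) l ∈ T := by
      intro l
      have h1 : IntermediateField.adjoin K {θ} ≤
          (T.restrictScalars K).comap (IsScalarTower.toAlgHom K L (RatFunc L)) := by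
        rw [IntermediateField.adjoin_simple_le_iff]
        exact hθT
      have h2 : l ∈ IntermediateField.adjoin K {θ} := by rw [hθ]; trivial
      exact h1 h2
    have hXT : (RatFunc.X : RatFunc L) ∈ T := by
      rw [← map_X hp]
      exact T.algebraMap_mem _
    have hPT : ∀ q : L[X], algebraMap L[X] (RatFunc L) q ∈ T := by
      intro q
      induction q using Polynomial.induction_on' with
      | add p q hp hq => rw [map_add]; exact add_mem hp hq
      | monomial n a =>
        rw [← Polynomial.C_mul_X_pow_eq_monomial, map_mul, map_pow, RatFunc.algebraMap_X]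
        exact mul_mem (hLT a) (pow_mem hXT n)
    have hT' : T = ⊤ := by
      rw [eq_top_iff]
      intro f _
      rw [← RatFunc.num_div_denom f]
      exact div_mem (hPT _) (hPT _)
    rw [hT']
    rfl

theorem exists_f (hp : ∀ p : K[X], algebraMap (RatFunc K) (RatFunc L)
      (algebraMap K[X] (RatFunc K) p) = algebraMap L[X] (RatFunc L) (p.map (algebraMap K L)))
    [FiniteDimensional (RatFunc K) (RatFunc L)] [IsGalois (RatFunc K) (RatFunc L)] :
    ∃ f : (RatFunc L ≃ₐ[RatFunc K] RatFunc L) ≃* (L ≃ₐ[K] L),
      ∀ (σ : RatFunc L ≃ₐ[RatFunc K] RatFunc L) (x : L),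
        σ (algebraMap L (RatFunc L) x) = algebraMap L (RatFunc L) (f σ x) := by
  have t1 := tower1 hp
  let ρ : (RatFunc L ≃ₐ[RatFunc K] RatFunc L) →* (L ≃ₐ[K] L) :=
    (AlgEquiv.restrictNormalHom (F := K) (K₁ := RatFunc L) L).comp (AlgEquiv.restrictScalarsHom K)
  have hρ : ∀ (σ : RatFunc L ≃ₐ[RatFunc K] RatFunc L) (x : L),
      σ (algebraMap L (RatFunc L) x) = algebraMap L (RatFunc L) (ρ σ x) := by
    intro σ x
    exact (AlgEquiv.restrictNormal_commutes (σ.restrictScalars K) L x).symm
  have hinj : Function.Injective ρ := by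
    rw [injective_iff_map_eq_one]
    intro σ hσ
    have h1 : (σ : RatFunc L →+* RatFunc L) = RingHom.id (RatFunc L) := by
      apply hom_ext'
      · intro l
        have := hρ σ l
        rw [hσ] at this
        exact this
      · have := σ.commutes RatFunc.X
        rw [map_X hp] at this
        exact this
    apply AlgEquiv.ext
    intro x
    exact RingHom.congr_fun h1 x
  have hsurj : Function.Surjective ρ := by
    rw [← MonoidHom.range_eq_top]
    have h1 : IntermediateField.fixedField ρ.range = ⊥ := by
      rw [eq_bot_iff]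
      intro x hx
      have h2 : algebraMap L (RatFunc L) x ∈ (⊥ : IntermediateField (RatFunc K) (RatFunc L)) := by
        rw [IsGalois.mem_bot_iff_fixed]
        intro σ
        rw [hρ]
        congr 1
        exact hx ⟨ρ σ, ⟨σ, rfl⟩⟩
      rw [IntermediateField.mem_bot] at h2
      obtain ⟨c, hc⟩ := h2
      have h3 : IsAlgebraic K c := by
        rw [← isAlgebraic_algebraMap_iff (algebraMap (RatFunc K) (RatFunc L)).injective, hc]
        exact (Algebra.IsAlgebraic.isAlgebraic (R := K) x).algebraMap
      obtain ⟨k, rfl⟩ := const_of_alg c h3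
      rw [IntermediateField.mem_bot]
      refine ⟨k, ?_⟩
      apply (algebraMap L (RatFunc L)).injective
      rw [← hc, ← IsScalarTower.algebraMap_apply, ← IsScalarTower.algebraMap_apply]
    rw [← IntermediateField.fixingSubgroup_fixedField ρ.range, h1,
      IntermediateField.fixingSubgroup_bot]
  exact ⟨MulEquiv.ofBijective ρ ⟨hinj, hsurj⟩, hρ⟩

end alg

/-- the extension `K(X) → L(X)` -/
theorem exists_algebra (K L : Type) [Field K] [Field L] [Algebra K L] :
    ∃ _ : Algebra (RatFunc K) (RatFunc L), ∀ p : K[X],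
      algebraMap (RatFunc K) (RatFunc L) (algebraMap K[X] (RatFunc K) p) =
        algebraMap L[X] (RatFunc L) (p.map (algebraMap K L)) := by
  let bc : K[X] →+* RatFunc L := (algebraMap L[X] (RatFunc L)).comp (mapRingHom (algebraMap K L))
  have hbc : Function.Injective bc := by
    rw [RingHom.coe_comp]
    exact (IsFractionRing.injective L[X] (RatFunc L)).comp
      (Polynomial.map_injective _ (algebraMap K L).injective)
  let κ : RatFunc K →+* RatFunc L := IsFractionRing.lift (A := K[X]) hbc
  have hκ : ∀ p, κ (algebraMap K[X] (RatFunc K) p) = bc p := fun p =>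
    IsFractionRing.lift_algebraMap hbc p
  exact ⟨κ.toAlgebra, hκ⟩

open Pool.Agent.N70.EP Pool.Agent.H391R2.T4

/-- ONE -/
theorem t_one : St_one := by
  intro K L _ _ _ _ _ _
  obtain ⟨iA, hp⟩ := exists_algebra K L
  have t1 : IsScalarTower K (RatFunc K) (RatFunc L) := tower1 hp
  obtain ⟨q, hq, hqs⟩ := split hp
  have hfd : FiniteDimensional (RatFunc K) (RatFunc L) :=
    Polynomial.IsSplittingField.finiteDimensional (RatFunc L) q
  have hgal : IsGalois (RatFunc K) (RatFunc L) := IsGalois.of_separable_splitting_field hq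
  obtain ⟨f, hf⟩ := exists_f hp
  refine ⟨iA, hfd, hgal, f, ⟨fun x => ?_, hf⟩, ?_⟩
  · rw [← IsScalarTower.algebraMap_apply, ← IsScalarTower.algebraMap_apply]
  · intro E _ _ α hα
    obtain ⟨F, i1, i2, i3, i4, i5, i6, i7, i8, γ, hγ, hreg⟩ := hα
    obtain ⟨F', j1, j2, j3, j4, j5, j6, j7, j8, γ', hγ', hreg'⟩ :=
      Pool.Agent.TH377.IG.bert_aux K L (RatFunc L) const_of_alg (f : _ →* _) hf E
        (((f.symm : (L ≃ₐ[K] L) ≃* _) : (L ≃ₐ[K] L) →* _).comp α)
        (RatFunc (RatFunc K)) F (fun c => by
          have h1 : algebraMap (RatFunc K)[X] (RatFunc (RatFunc K)) (C c) =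
            algebraMap (RatFunc K) (RatFunc (RatFunc K)) c := rfl
          rw [h1, ← IsScalarTower.algebraMap_apply, ← IsScalarTower.algebraMap_apply]) γ hγ hreg
    let aLF : Algebra L F' := ((algebraMap (RatFunc L) F').comp (algebraMap L (RatFunc L))).toAlgebra
    have hLF : ∀ x : L, algebraMap L F' x = algebraMap (RatFunc L) F' (algebraMap L (RatFunc L) x) :=
      fun _ => rfl
    have tKLF : IsScalarTower K L F' := by
      refine IsScalarTower.of_algebraMap_eq fun c => ?_
      rw [hLF, ← IsScalarTower.algebraMap_apply K L (RatFunc L),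
        IsScalarTower.algebraMap_apply K (RatFunc K) (RatFunc L),
        ← IsScalarTower.algebraMap_apply (RatFunc K) (RatFunc L) F',
        ← IsScalarTower.algebraMap_apply K (RatFunc K) F']
    refine ⟨F', j1, j2, aLF, j4, j6, tKLF, j7, j8, γ', fun σ x => ?_, fun y hy => ?_⟩
    · rw [hLF, hLF, hγ']
      congr 1
      have h2 := hf (f.symm (α (γ' σ))) x
      rw [f.apply_symm_apply] at h2
      exact h2
    · obtain ⟨x, hx⟩ := hreg' y (hy.restrictScalars K)
      exact ⟨x, hx.symm⟩

end Pool.Agent.N999.EP
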